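import Pool.Agent.E8helper96.KP.Prog

/-!
# The elliptico-toric inequality for multiples of logarithms by generic numbers

The definitions of `ζ`, `k L` (the field `ℚ ⊗ End(ℂ / Ω)`), `T₀ = 2πi ℚ`, `P₀ L = Ω ⊗ ℚ`, `trd`
(transcendence degree of `K(S)` over `K`), `gen L t p` (the numbers `g₂, g₃, ω₁, ω₂, η₁, η₂, t, e^t,
p, ℘(p), ζ(p)`) and `dimMod` (dimension of the span modulo a subspace) are in the starting file
`Pool.Agent.Y776.EtDefs`.

The theorem: there is a countable algebraically closed field `F ⊂ ℂ`, closed under `exp` and under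
`℘`, `ζ` of the lattices with a basis in `F`, such that for all fields `Λ` of transcendence degree
`r ≥ 1` which are linearly disjoint from `F` over `ℚ`, for example `Λ = ℚ(λ)` for an arbitrary number
`λ ∉ F`, the following holds for all tuples `t`, `p`. Let `n_t` be the dimension of the `ℚ`-span of
`t` modulo `2πi ℚ` and `d_t` the dimension of the `Λ`-span of `t` modulo `2πi Λ`; let `n_p` be the
dimension of the `k`-span of `p` modulo `Ω ⊗ ℚ` and `d_p` the dimension of the `k Λ`-span of `p`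
modulo the `k Λ`-span of `Ω`.

(1) For all lattices, the transcendence degree of the elliptico-toric field over `F(Λ)` is at least
`(n_t - d_t) + 2 (n_p - d_p) - (r - 1)`.
(2) For the lattices with a basis in `F`, the transcendence degree over `F(Λ, t, p)` of the numbers
`e^t, ℘(p), ζ(p)` is at least `(n_t - d_t) + 2 (n_p - d_p) - (r - 1)`.
(3) In particular for `λ ∉ F`, `s` numbers `t_i` and `n` numbers `p_i` such that no nontrivial
combination of the `t_i` (of the `p_i`) with coefficients in `ℚ[λ]` (in `k[λ]`) lies in `2πi ℚ` (in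
`Ω ⊗ ℚ`), at least `m (s + 2 n)` of the numbers `exp(λ^j t_i)`, `℘(λ^j p_i)`, `ζ(λ^j p_i)`,
`0 ≤ j ≤ m`, are algebraically independent over `F(λ, t, p)`.
-/

set_option autoImplicit false

open Module
open scoped PeriodPair

noncomputable section

namespace Pool.Agent.Results.MP_8da9ea_nt.GenericMultiplesH96

open Pool.Agent.Y776.Et (ζ k T₀ P₀ trd gen dimMod)

/-- The fields `Λ` and `F` are linearly disjoint over `ℚ`: numbers of `F` which are linearly
independent over `ℚ` are linearly independent over `Λ`. -/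
def LinDisj (Λ : IntermediateField ℚ ℂ) (F : Subfield ℂ) : Prop :=
  ∀ (m : ℕ) (e : Fin m → ℂ), (∀ i, e i ∈ F) → LinearIndependent ℚ e → LinearIndependent Λ e

/-- `2πi Λ` -/
def T (Λ : IntermediateField ℚ ℂ) : Submodule Λ ℂ := Submodule.span Λ {2 * Real.pi * Complex.I}

/-- the subspace over the field `k Λ` spanned by the lattice -/
def P (Λ : IntermediateField ℚ ℂ) (L : PeriodPair) : Submodule ↥(k L ⊔ Λ) ℂ :=
  Submodule.span ↥(k L ⊔ Λ) (L.lattice : Set ℂ)

/-- the numbers `e^t`, `℘(p)`, `ζ(p)` for `t ∈ A` and `p ∈ B` -/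
def values (L : PeriodPair) (A B : Set ℂ) : Set ℂ :=
  Complex.exp '' A ∪ (℘[L] '' B ∪ ζ L '' B)

open Pool.Agent.E8helper96 in
theorem trdeg_simple {F : Subfield ℂ} (halg : ∀ x, IsAlgebraic F x → x ∈ F) {l : ℂ}
    (hl : l ∉ F) : Algebra.trdeg ℚ (IntermediateField.adjoin ℚ {l}) = 1 := by
  have htr : Transcendental ℚ l := by
    intro h
    apply hl
    apply halg
    exact h.extendScalars (algebraMap ℚ F).injective
  have hai : AlgebraicIndependent ℚ (fun _ : Fin 1 => l) :=
    algebraicIndependent_unique_type_iff.2 htr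
  have h1 := Pool.Agent.Y776.rank_range hai
  rw [Set.range_const] at h1
  have h2 := Pool.Agent.Y776.Et.trd_of_rank h1
  rw [Nat.cast_one] at h2
  exact h2

theorem values_eq (L : PeriodPair) {s n : ℕ} (t : Fin s → ℂ) {p : Fin n → ℂ}
    (hp : ∀ i, p i ∉ L.lattice) :
    values L (Set.range t) (Set.range p) = Pool.Agent.E8helper96.KP.NewS L t p := by
  have e3 : ζ L '' Set.range p = Set.range (fun i => Pool.Agent.W245.EB.zt L (p i)) := by
    rw [← Set.range_comp]
    congr 1
    funext i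
    exact (if_neg (hp i)).symm
  have e4 : ℘[L] '' Set.range p = Set.range (fun i => ℘[L] (p i)) := (Set.range_comp _ _).symm
  have e5 : Complex.exp '' Set.range t = Set.range (fun i => Complex.exp (t i)) :=
    (Set.range_comp _ _).symm
  unfold values Pool.Agent.E8helper96.KP.NewS
  rw [e3, e4, e5]

theorem result (S : Set ℂ) (hS : S.Countable) :
    ∃ F : Subfield ℂ, (F : Set ℂ).Countable ∧ S ⊆ F ∧ (∀ x, IsAlgebraic F x → x ∈ F) ∧
      (∀ x ∈ F, Complex.exp x ∈ F) ∧
      (∀ L : PeriodPair, L.ω₁ ∈ F → L.ω₂ ∈ F → ∀ x ∈ F, x ∉ L.lattice → ℘[L] x ∈ F ∧ ζ L x ∈ F) ∧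
      -- generic numbers generate linearly disjoint fields
      (∀ l : ℂ, l ∉ F → LinDisj (IntermediateField.adjoin ℚ {l}) F ∧
        Algebra.trdeg ℚ (IntermediateField.adjoin ℚ {l}) = 1) ∧
      -- (1) and (2)
      (∀ (Λ : IntermediateField ℚ ℂ) (r : ℕ), LinDisj Λ F → Algebra.trdeg ℚ Λ = r → 0 < r →
        ∀ (L : PeriodPair) (s n : ℕ) (t : Fin s → ℂ) (p : Fin n → ℂ), (∀ i, p i ∉ L.lattice) →
          ((dimMod T₀ t + 2 * dimMod (P₀ L) p + 1 : ℕ) : Cardinal) ≤
            trd ↥(IntermediateField.adjoin ℚ ((F : Set ℂ) ∪ (Λ : Set ℂ))) (gen L t p) +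
              ((dimMod (T Λ) t + 2 * dimMod (P Λ L) p + r : ℕ) : Cardinal) ∧
          (L.ω₁ ∈ F → L.ω₂ ∈ F → ((dimMod T₀ t + 2 * dimMod (P₀ L) p + 1 : ℕ) : Cardinal) ≤
            trd ↥(IntermediateField.adjoin ℚ ((F : Set ℂ) ∪ (Λ : Set ℂ) ∪ Set.range t ∪ Set.range p))
              (values L (Set.range t) (Set.range p)) +
              ((dimMod (T Λ) t + 2 * dimMod (P Λ L) p + r : ℕ) : Cardinal))) ∧
      -- (3)
      ∀ (l : ℂ), l ∉ F → ∀ L : PeriodPair, L.ω₁ ∈ F → L.ω₂ ∈ F →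
        ∀ (s n m : ℕ) (t : Fin s → ℂ) (p : Fin n → ℂ),
          (∀ Q : Fin s → Polynomial ℚ, ∑ i, Polynomial.aeval l (Q i) * t i ∈ T₀ → Q = 0) →
          (∀ Q : Fin n → Polynomial (k L), ∑ i, Polynomial.aeval l (Q i) * p i ∈ P₀ L → Q = 0) →
          ((m * (s + 2 * n) : ℕ) : Cardinal) ≤
            trd ↥(IntermediateField.adjoin ℚ ((F : Set ℂ) ∪ {l} ∪ Set.range t ∪ Set.range p))
              (values L {x | ∃ (i : Fin s) (j : ℕ), j ≤ m ∧ x = l ^ j * t i}
                {x | ∃ (i : Fin n) (j : ℕ), j ≤ m ∧ x = l ^ j * p i}) := by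
  classical
  obtain ⟨F, hF, hFS⟩ := Pool.Agent.Y685.exists_Fld hS
  refine ⟨F, hF.cnt, hFS, hF.alg, hF.exp, fun L h1 h2 x hx hxL =>
    ⟨hF.wp L ⟨h1, h2⟩ x hx, ?_⟩, fun l hl =>
    ⟨Pool.Agent.E8helper96.KP.LinDisj.simple hF.alg hl, trdeg_simple hF.alg hl⟩, ?_, ?_⟩
  · have h3 := hF.zt L ⟨h1, h2⟩ x hx
    rwa [Pool.Agent.W245.EB.zt_of_notMem hxL] at h3
  · intro Λ r hD hr hr0 L s n t p hp
    have hD' : Pool.Agent.E8helper96.KP.LinDisj Λ F := hD
    refine ⟨?_, fun h1 h2 => ?_⟩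
    · rw [← Pool.Agent.E8helper96.KP.le_trd (Pool.Agent.Y776.Et.gen_finite t p),
        Pool.Agent.Y776.Et.gen_GA t hp]
      refine Pool.Agent.E8helper96.KP.mainI hF hD' hr hr0 L t p (fun δ hδ hδΛ => ?_)
      apply Pool.Agent.E8helper96.KP.kill_adjoin
      rintro x (hx | hx)
      · exact hδ x hx
      · exact hδΛ x hx
    · rw [values_eq L t hp,
        ← Pool.Agent.E8helper96.KP.le_trd (Pool.Agent.E8helper96.KP.NewS_finite t p)]
      refine Pool.Agent.E8helper96.KP.mainII hF hD' hr hr0 ⟨h1, h2⟩ t p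
        (fun δ hδ hδΛ hδt hδp => ?_)
      apply Pool.Agent.E8helper96.KP.kill_adjoin
      rintro x (((hx | hx) | ⟨i, rfl⟩) | ⟨i, rfl⟩)
      · exact hδ x hx
      · exact hδΛ x hx
      · exact hδt i
      · exact hδp i
  · intro l hl L h1 h2 s n m t p ht hp
    set Λ : IntermediateField ℚ ℂ := IntermediateField.adjoin ℚ {l} with hΛ
    have hlΛ : l ∈ Λ := IntermediateField.mem_adjoin_simple_self ℚ l
    have hD : Pool.Agent.E8helper96.KP.LinDisj Λ F :=
      Pool.Agent.E8helper96.KP.LinDisj.simple hF.alg hl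
    have hr : Algebra.trdeg ℚ Λ = ((1 : ℕ) : Cardinal) := by
      rw [Nat.cast_one]
      exact trdeg_simple hF.alg hl
    let t' := Pool.Agent.E8helper96.KP.pr l m t
    let p' := Pool.Agent.E8helper96.KP.pr l m p
    -- the dimensions
    have e1 : dimMod T₀ t' = s * (m + 1) := by
      apply Pool.Agent.E8helper96.KP.dimMod_eq_of
      intro g hg
      rw [Pool.Agent.E8helper96.KP.pr_sum] at hg
      exact Pool.Agent.E8helper96.KP.poly_zero (fun i => congrFun (ht _ hg) i)
    have hp0 : ∀ g : Fin (n * (m + 1)) → k L, ∑ i, g i • p' i ∈ P₀ L → g = 0 := by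
      intro g hg
      rw [Pool.Agent.E8helper96.KP.pr_sum] at hg
      exact Pool.Agent.E8helper96.KP.poly_zero (fun i => congrFun (hp _ hg) i)
    have e2 : dimMod (P₀ L) p' = n * (m + 1) := Pool.Agent.E8helper96.KP.dimMod_eq_of _ hp0
    have e3 : dimMod (T Λ) t' ≤ s := by
      apply Pool.Agent.E8helper96.KP.dimMod_le_of _ (w := t)
      intro i
      have h3 : t' i = (⟨l ^ ((finProdFinEquiv.symm i).2 : ℕ), pow_mem hlΛ _⟩ : Λ) •
          t (finProdFinEquiv.symm i).1 := rfl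
      rw [h3]
      exact Submodule.smul_mem _ _ (Submodule.subset_span ⟨_, rfl⟩)
    have e4 : dimMod (P Λ L) p' ≤ n := by
      apply Pool.Agent.E8helper96.KP.dimMod_le_of _ (w := p)
      intro i
      have h3 : p' i = (⟨l ^ ((finProdFinEquiv.symm i).2 : ℕ),
          pow_mem ((le_sup_right : Λ ≤ k L ⊔ Λ) hlΛ) _⟩ : ↥(k L ⊔ Λ)) •
          p (finProdFinEquiv.symm i).1 := rfl
      rw [h3]
      exact Submodule.smul_mem _ _ (Submodule.subset_span ⟨_, rfl⟩)
    have hpL : ∀ i, p' i ∉ L.lattice := by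
      intro i hi
      have h3 : ∑ j, (Pi.single i (1 : k L) : Fin (n * (m + 1)) → k L) j • p' j ∈ P₀ L := by
        rw [Finset.sum_eq_single i]
        · rw [Pi.single_eq_same, one_smul]
          exact Pool.Agent.TH813.Ell.lattice_le_P₂ hi
        · intro j _ hj
          rw [Pi.single_eq_of_ne hj, zero_smul]
        · intro h; exact absurd (Finset.mem_univ i) h
      have h4 := congrFun (hp0 _ h3) i
      rw [Pi.single_eq_same] at h4
      exact one_ne_zero h4
    have hval : values L {x | ∃ (i : Fin s) (j : ℕ), j ≤ m ∧ x = l ^ j * t i}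
        {x | ∃ (i : Fin n) (j : ℕ), j ≤ m ∧ x = l ^ j * p i} =
        Pool.Agent.E8helper96.KP.NewS L t' p' := by
      rw [← values_eq L t' hpL]
      have hset : ∀ {a : ℕ} (u : Fin a → ℂ), {x | ∃ (i : Fin a) (j : ℕ), j ≤ m ∧ x = l ^ j * u i} =
          Set.range (Pool.Agent.E8helper96.KP.pr l m u) := by
        intro a u
        ext x
        constructor
        · rintro ⟨i, j, hj, rfl⟩
          obtain ⟨q, hq⟩ := Pool.Agent.E8helper96.KP.pr_mem (l := l) (t := u) i hj
          exact ⟨q, hq⟩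
        · rintro ⟨q, rfl⟩
          exact ⟨_, _, Nat.le_of_lt_succ (finProdFinEquiv.symm q).2.2, rfl⟩
      rw [hset t, hset p]
    have hkey := Pool.Agent.E8helper96.KP.mainII hF hD hr one_pos (L := L) ⟨h1, h2⟩ t' p'
      (E := IntermediateField.adjoin ℚ ((F : Set ℂ) ∪ {l} ∪ Set.range t ∪ Set.range p))
      (fun δ hδ hδΛ hδt hδp => by
        have hmem : ∀ {a : ℕ} (u : Fin a → ℂ), (∀ q, δ (Pool.Agent.E8helper96.KP.pr l m u q) = 0) →
            ∀ i, δ (u i) = 0 := by
          intro a u hu i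
          obtain ⟨q, hq⟩ := Pool.Agent.E8helper96.KP.pr_mem (l := l) (m := m) (t := u) i
            (Nat.zero_le m)
          have h5 := hu q
          rwa [hq, pow_zero, one_mul] at h5
        apply Pool.Agent.E8helper96.KP.kill_adjoin
        rintro x (((hx | hx) | ⟨i, rfl⟩) | ⟨i, rfl⟩)
        · exact hδ x hx
        · rw [hx]
          exact hδΛ l hlΛ
        · exact hmem t hδt i
        · exact hmem p hδp i)
    rw [hval]
    obtain ⟨g, hg⟩ := Pool.Agent.Y776.Et.rank_finite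
      (K := ↥(IntermediateField.adjoin ℚ ((F : Set ℂ) ∪ {l} ∪ Set.range t ∪ Set.range p)))
      (Pool.Agent.E8helper96.KP.NewS_finite (L := L) t' p')
    rw [Pool.Agent.Y776.Et.trd_of_rank hg]
    rw [hg, e1, e2] at hkey
    norm_cast at hkey ⊢
    have e3' : dimMod (Pool.Agent.E8helper96.KP.TL Λ) t' ≤ s := e3
    have e4' : dimMod (Pool.Agent.E8helper96.KP.PL Λ L) p' ≤ n := e4
    nlinarith

end Pool.Agent.Results.MP_8da9ea_nt.GenericMultiplesH96
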